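import Pool.Agent.Work.MP_56b8f5_nt.EM.All

/-!
A new lower bound for the eighth moment of the Riemann zeta function on the critical line:
`M_4(T) ≥ 1698 (a_4/16!) (log T)^16` for all large `T` (the conjectured constant is `24024`).
-/

open Filter Topology

namespace Pool.Agent.Results.MP_56b8f5_nt.EighthMomentLowerBound

theorem result :
    (Multipliable fun p : Nat.Primes => (1 - 1 / (p : ℝ)) ^ 16 *
      ∑' m : ℕ, (((m + 3).choose m : ℕ) : ℝ) ^ 2 * (1 / (p : ℝ)) ^ m) ∧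
    0 < (∏' p : Nat.Primes, (1 - 1 / (p : ℝ)) ^ 16 *
      ∑' m : ℕ, (((m + 3).choose m : ℕ) : ℝ) ^ 2 * (1 / (p : ℝ)) ^ m) ∧
    ∀ᶠ T : ℝ in atTop,
      1698 * ((∏' p : Nat.Primes, (1 - 1 / (p : ℝ)) ^ 16 *
        ∑' m : ℕ, (((m + 3).choose m : ℕ) : ℝ) ^ 2 * (1 / (p : ℝ)) ^ m) /
          (Nat.factorial 16 : ℝ)) * Real.log T ^ 16 ≤
      (1 / T) * ∫ t in (0 : ℝ)..T, ‖riemannZeta (1 / 2 + t * Complex.I)‖ ^ 8 :=
  Pool.Agent.Work.MP_56b8f5_nt.EM.all_main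

end Pool.Agent.Results.MP_56b8f5_nt.EighthMomentLowerBound
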