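import Pool.Agent.Work.MP_56b8f5_nt.HZ.U_All

/-!
All moments of the Riemann zeta function on the critical line have the expected order of magnitude, unconditionally, if the
heights `t` in `[T, 2T]` are weighted according to the zeros near `t` to the right of the critical line: the weight is
`exp(- K D(t))`, where `D(t) = 0` if there are no such zeros and `D(t) > A` only for a proportion `C₁ exp(- A / 200)` of
the `t`. The same holds for the moments over the set where `D(t) ≤ A`.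
-/

open MeasureTheory

namespace Pool.Agent.Results.MP_56b8f5_nt.MomentsAwayFromZeros

/-- The influence at the height `t` of the zeros off the critical line: the supremum, over the zeros `ρ = β + iγ` of zeta
with `0 < β < 1`, of `max(0, (β - 1/2) log T - C log(1 + |γ - t| log T))`. -/
noncomputable def D (T C t : ℝ) : ℝ := ⨆ ρ : {ρ : ℂ // riemannZeta ρ = 0 ∧ 0 < ρ.re ∧ ρ.re < 1},
  max 0 ((ρ.1.re - 1 / 2) * Real.log T - C * Real.log (1 + |ρ.1.im - t| * Real.log T))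

theorem result : ∃ C₁ : ℝ, ∀ B : ℝ, 0 < B → ∃ A₀ c : ℝ, 0 < c ∧ ∀ C : ℝ, 400 ≤ C → ∃ K₀ M T₀ : ℝ, 3 ≤ T₀ ∧
  ∀ T : ℝ, T₀ ≤ T →
    (∀ A : ℝ, 1 ≤ A → volume.real {t : ℝ | T ≤ t ∧ t ≤ 2 * T ∧ A < D T C t} ≤
      C₁ * Real.exp (-A / 200) * T) ∧
    ∀ k : ℝ, 0 < k → k ≤ B →
      (∀ K : ℝ, K₀ ≤ K →
        c * Real.exp (-(A₀ * K)) * (T * Real.log T ^ (k ^ 2 : ℝ)) ≤
          ∫ t in T..(2 * T), Real.exp (-(K * D T C t)) * ‖riemannZeta (1 / 2 + t * Complex.I)‖ ^ (2 * k : ℝ) ∧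
        ∫ t in T..(2 * T), Real.exp (-(K * D T C t)) * ‖riemannZeta (1 / 2 + t * Complex.I)‖ ^ (2 * k : ℝ) ≤
          M * (T * Real.log T ^ (k ^ 2 : ℝ))) ∧
      ∀ A : ℝ, A₀ ≤ A →
        c * (T * Real.log T ^ (k ^ 2 : ℝ)) ≤
          ∫ t in {t : ℝ | T ≤ t ∧ t ≤ 2 * T ∧ D T C t ≤ A}, ‖riemannZeta (1 / 2 + t * Complex.I)‖ ^ (2 * k : ℝ) ∧
        ∫ t in {t : ℝ | T ≤ t ∧ t ≤ 2 * T ∧ D T C t ≤ A}, ‖riemannZeta (1 / 2 + t * Complex.I)‖ ^ (2 * k : ℝ) ≤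
          M * Real.exp (K₀ * A) * (T * Real.log T ^ (k ^ 2 : ℝ)) :=
  Pool.Agent.Work.MP_56b8f5_nt.HZ.mainW_all

end Pool.Agent.Results.MP_56b8f5_nt.MomentsAwayFromZeros
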