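import Pool.Agent.Work.MP_56b8f5_nt.HN.AllY

/-!
Asymptotic formula for all moments of the Riemann zeta function on all lines up to a large constant multiple of `1/log T` to the
right of the critical line, unconditionally, over the heights `t` in `[0, T]` which are not too close to zeros off the
critical line. The exceptional heights form a proportion `C₁ exp(- A / 400)` of `[0, T]`, the relative error of the formula is
`C exp(- A / 400)`, and `A` may be as large as `c (σ - 1/2) log T`. The arithmetic factor is that of the Keating-Snaith conjecture.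
The second formula allows different complex points `s_1 + it, ..., s_k + it` and `w_1 + it, ..., w_l + it` in the product.
-/

open MeasureTheory Set

namespace Pool.Agent.Results.MP_56b8f5_nt.MomentsNearLine

/-- The set of good heights: the real `u` such that every zero `ρ = β + iγ` of zeta with `0 < β < 1` satisfies
`(β - 1/2) log T ≤ A + K log (1 + |γ - u| log T)`. -/
def Z (T A K : ℝ) : Set ℝ := {u | ∀ ρ : ℂ, riemannZeta ρ = 0 → 0 < ρ.re → ρ.re < 1 →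
  (ρ.re - 1 / 2) * Real.log T ≤ A + K * Real.log (1 + |ρ.im - u| * Real.log T)}

/-- The arithmetic factor `a_k` of the problem. -/
noncomputable def a (k : ℕ) : ℝ := ∏' p : Nat.Primes, (1 - 1 / ((p : ℕ) : ℝ)) ^ k ^ 2 *
  ∑' m : ℕ, (((m + k - 1).choose m : ℕ) : ℝ) ^ 2 * (1 / ((p : ℕ) : ℝ)) ^ m

/-- The arithmetic function `n ↦ n^{-s}` (`n ≥ 1`). -/
noncomputable def e (s : ℂ) : ArithmeticFunction ℂ := ⟨fun n => if n = 0 then 0 else (n : ℂ) ^ (-s), by simp⟩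

/-- `d(s_1, ..., s_k; n) = ∑_{n_1 ⋯ n_k = n} n_1^{-s_1} ⋯ n_k^{-s_k}`, the Dirichlet convolution of the `n ↦ n^{-s_j}`,
so that `∏ ζ(s_j + z) = ∑ d(s; n) n^{-z}`. For `s_j = σ` for all `j` it is `d_k(n) n^{-σ}`. -/
noncomputable def d {k : ℕ} (s : Fin k → ℂ) (n : ℕ) : ℂ := (∏ j, e (s j)) n

theorem result :
    (∃ C₁ : ℝ, ∀ T A K : ℝ, 3 ≤ T → 1 ≤ A → 800 ≤ K → MeasurableSet (Z T A K) ∧
      (1 - C₁ * Real.exp (-(A / 400))) * T ≤ volume.real (Icc 0 T ∩ Z T A K)) ∧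
    (∀ k : ℕ, 1 ≤ k → 0 < a k ∧ ∀ K : ℝ, 800 ≤ K → ∃ c C T₀ : ℝ, 0 < c ∧ 3 ≤ T₀ ∧ ∀ T σ A : ℝ, T₀ ≤ T →
      σ ≤ 5 / 8 → 1 ≤ A → A ≤ c * ((σ - 1 / 2) * Real.log T) →
        |(1 / T) * (∫ t in Icc 0 T ∩ Z T A K, ‖riemannZeta (σ + t * Complex.I)‖ ^ (2 * k)) -
          a k * (1 / (2 * σ - 1)) ^ k ^ 2| ≤ C * (Real.exp (-(A / 400)) + (σ - 1 / 2)) * (1 / (2 * σ - 1)) ^ k ^ 2) ∧
    ∀ k l : ℕ, 1 ≤ k → 1 ≤ l → ∀ K : ℝ, 800 ≤ K → ∃ c C T₀ : ℝ, 0 < c ∧ 3 ≤ T₀ ∧ ∀ T σ A : ℝ, T₀ ≤ T →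
      σ ≤ 5 / 8 → 1 ≤ A → A ≤ c * ((σ - 1 / 2) * Real.log T) → ∀ (s : Fin k → ℂ) (w : Fin l → ℂ),
        (∀ j, σ ≤ (s j).re ∧ (s j).re ≤ 5 / 8 ∧ |(s j).im| ≤ Real.sqrt T) →
        (∀ j, σ ≤ (w j).re ∧ (w j).re ≤ 5 / 8 ∧ |(w j).im| ≤ Real.sqrt T) →
        ‖(∫ t in {t : ℝ | 0 ≤ t ∧ t ≤ T ∧ (∀ j, t + (s j).im ∈ Z T A K) ∧ ∀ j, t + (w j).im ∈ Z T A K},
            (∏ j, riemannZeta (s j + t * Complex.I)) * (starRingEnd ℂ) (∏ j, riemannZeta (w j + t * Complex.I))) -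
          T * ∑' n : ℕ, d s n * (starRingEnd ℂ) (d w n)‖ ≤
          C * Real.exp (-(A / 400)) * (T * (1 / (2 * σ - 1)) ^ (((k : ℝ) ^ 2 + (l : ℝ) ^ 2) / 2)) :=
  Pool.Agent.Work.MP_56b8f5_nt.HN.all_FinY

end Pool.Agent.Results.MP_56b8f5_nt.MomentsNearLine
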