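import Pool.Agent.Work.MP_56b8f5_nt.UV.All

/-!
Moments of the Riemann zeta function on the critical line: upper bounds with an exponent below `1 + (A - 4) / 8`, the
value given by interpolation between the fourth moment and Heath-Brown's twelfth moment. For `A = 8`:
`∫_0^T |ζ(1/2+it)|^8 dt ≤ C T^(3/2 - 1/42 + ε)`; for `A = 12` the exponent is below `2`.
-/

open MeasureTheory Set

namespace Pool.Agent.Results.MP_56b8f5_nt.UpperBound

theorem result : ∃ δ : ℝ, 0 < δ ∧ ∀ A ε : ℝ, 4 ≤ A → A ≤ 12 + δ → 0 < ε →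
    ∃ C : ℝ, ∀ T : ℝ, 1 ≤ T →
      ∫ t in (0 : ℝ)..T, ‖riemannZeta (1 / 2 + t * Complex.I)‖ ^ A ≤
        C * T ^ (1 + (A - 4) / 8 - max (min (A - 4) (12 - A) / 168) (δ * (A - 4)) + ε) :=
  Pool.Agent.Work.MP_56b8f5_nt.UV.all_Fin2

end Pool.Agent.Results.MP_56b8f5_nt.UpperBound
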